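import Pool.Agent.W973.IP.FDefs

/-!
# Isolated points: polynomial time for `XT`, `qaT`, `dqT` (part IPF-PQ of project IP)
-/

set_option autoImplicit false

namespace Pool.Agent.W672.IP

open Pool.Agent.W973.IP Pool.Agent.NPC Pool.Agent.NPC.ER Pool.Agent.NPC.H612

section

variable {α : Type} [TEnc α]

theorem poly_numT {k : α → ℕ} (hk : NPC.Poly k) : NPC.Poly (fun a => numT (k a)) :=
  poly_natT (NPC.Poly.natBits hk)

theorem poly_oneT {b : α → Bool} (hb : NPC.Poly b) : NPC.Poly (fun a => oneT (b a)) := by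
  unfold oneT
  exact NPC.Poly.ite (NPC.Poly.decide_bool hb) (NPC.Poly.const _) (NPC.Poly.const _)

theorem poly_nm {ty : ℕ} {i j : α → ℕ} (hi : NPC.Poly i) (hj : NPC.Poly j) :
    NPC.Poly (fun a => nm ty (i a) (j a)) :=
  NPC.Poly.add (NPC.Poly.mul (NPC.Poly.const 16) (poly_natPair hi hj)) (NPC.Poly.const ty)

theorem poly_powT' {t : α → Tm} {k : α → ℕ} (ht : NPC.Poly t) (hk : UPoly k) :
    NPC.Poly (fun a => powT' (t a) (k a)) := by
  unfold powT'
  exact poly_prodT (NPC.Poly.map (F := fun a _ => t a) hk.range (ht.comp (NPC.Poly.fst NPC.Poly.id)))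

/-- Powers with an exponent which is bounded by a unary number. -/
theorem poly_powM {t : α → Tm} {k n : α → ℕ} (ht : NPC.Poly t) (hk : NPC.Poly k) (hn : UPoly n) :
    NPC.Poly (fun a => powT' (t a) (min (k a) (n a))) :=
  poly_powT' ht (UPoly.of_le (NPC.Poly.min hk hn.toPoly) hn fun _ => min_le_right _ _)

theorem poly_XT {n : α → ℕ} {wn : α → ℕ → ℕ} (hn : UPoly n)
    (hw : NPC.Poly (fun q : α × ℕ => wn q.1 q.2)) : NPC.Poly (fun a => XT (n a) (wn a)) := by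
  unfold XT
  exact poly_sumT (NPC.Poly.cons (NPC.Poly.const _)
    (NPC.Poly.map (F := fun a j => Tm.mul (Tm.var (wn a j)) (Tm.var (wn a j))) hn.range
      (poly_tmul (poly_tvar hw) (poly_tvar hw))))

theorem poly_LT {n s : α → ℕ} {wn : α → ℕ → ℕ} (hn : UPoly n) (hs : NPC.Poly s)
    (hw : NPC.Poly (fun q : α × ℕ => wn q.1 q.2)) : NPC.Poly (fun a => W973.IP.LT (n a) (s a) (wn a)) := by
  have h : NPC.Poly (fun a => sumT ((List.range (n a)).map fun j =>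
      Tm.mul (powT' (numT (s a)) (min j (n a))) (Tm.var (wn a j)))) := by
    refine poly_sumT (NPC.Poly.map (F := fun a j =>
      Tm.mul (powT' (numT (s a)) (min j (n a))) (Tm.var (wn a j))) hn.range ?_)
    exact poly_tmul (poly_powM (poly_numT (hs.comp (NPC.Poly.fst NPC.Poly.id))) (NPC.Poly.snd NPC.Poly.id)
      (UPoly.comp hn (NPC.Poly.fst NPC.Poly.id))) (poly_tvar hw)
  refine h.congr fun a => ?_
  unfold W973.IP.LT
  congr 1
  refine List.map_congr_left fun j hj => ?_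
  rw [min_eq_left (List.mem_range.1 hj).le]

theorem poly_owT {o : α → ℕ} {wn : α → ℕ → ℕ} (ho : NPC.Poly o)
    (hw : NPC.Poly (fun q : α × ℕ => wn q.1 q.2)) : NPC.Poly (fun a => owT (wn a) (o a)) := by
  unfold owT
  exact NPC.Poly.ite (NPC.Poly.decide_eq ho (NPC.Poly.const 0)) (NPC.Poly.const _)
    (poly_tvar (NPC.Poly.comp (g := fun q : α × ℕ => wn q.1 q.2) (f := fun a => (a, o a - 1)) hw
      (NPC.Poly.pair NPC.Poly.id (NPC.Poly.sub ho (NPC.Poly.const 1)))))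

theorem poly_ix3 (h : S_PU) {n : α → ℕ} {t : α → ℕ × ℕ × ℕ} (hn : UPoly n) (ht : NPC.Poly t) :
    NPC.Poly (fun a => ix3 (n a) (t a)) := by
  have hM := (h α n hn).1.toPoly
  unfold ix3
  exact NPC.Poly.add (NPC.Poly.add hn.toPoly (NPC.Poly.mul (NPC.Poly.add (NPC.Poly.mul (NPC.Poly.fst ht) hM)
    (NPC.Poly.fst (NPC.Poly.snd ht))) (NPC.Poly.mul (NPC.Poly.const 2) (NPC.Poly.succ hn.toPoly))))
    (NPC.Poly.snd (NPC.Poly.snd ht))

theorem poly_aT (h : S_PU) {n k : α → ℕ} (hn : UPoly n) (hk : NPC.Poly k) :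
    NPC.Poly (fun a => aT (n a) (k a)) := by
  obtain ⟨-, -, hfa, hbb⟩ := h α n hn
  unfold aT
  exact poly_tvar (poly_nm (NPC.Poly.mul hbb.toPoly (NPC.Poly.sub hfa.toPoly hk)) (NPC.Poly.const 0))

theorem poly_trip (h : S_PU) {n : α → ℕ} (hn : UPoly n) : NPC.Poly (fun a => trip (n a)) := by
  have hM := (h α n hn).1
  have h1 : UPoly (fun a => n a + 1) := UPoly.add hn (UPoly.const 1)
  have h2 : UPoly (fun a => 2 * (n a + 1)) := UPoly.mul (UPoly.const 2) h1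
  unfold trip
  refine NPC.Poly.flatMap (F := fun a o => (List.range (MM (n a))).flatMap fun s =>
    (List.range (2 * (n a + 1))).map fun d => (o, s, d)) h1.range ?_
  refine NPC.Poly.flatMap (F := fun (q : α × ℕ) s =>
    (List.range (2 * (n q.1 + 1))).map fun d => (q.2, s, d))
    (UPoly.comp hM (NPC.Poly.fst NPC.Poly.id)).range ?_
  refine NPC.Poly.map (F := fun (q : (α × ℕ) × ℕ) d => (q.1.2, q.2, d))
    (UPoly.comp h2 (NPC.Poly.fst (NPC.Poly.fst NPC.Poly.id))).range ?_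
  exact NPC.Poly.pair (NPC.Poly.snd (NPC.Poly.fst (NPC.Poly.fst NPC.Poly.id)))
    (NPC.Poly.pair (NPC.Poly.snd (NPC.Poly.fst NPC.Poly.id)) (NPC.Poly.snd NPC.Poly.id))

theorem mem_trip {n : ℕ} {t : ℕ × ℕ × ℕ} (ht : t ∈ trip n) : t.2.2 < 2 * (n + 1) := by
  unfold trip at ht
  simp only [List.mem_flatMap, List.mem_map, List.mem_range] at ht
  obtain ⟨o, -, s, -, d, hd, rfl⟩ := ht
  exact hd

theorem poly_qaT (h : S_PU) {n : α → ℕ} {wn : α → ℕ → ℕ} (hn : UPoly n)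
    (hw : NPC.Poly (fun q : α × ℕ => wn q.1 q.2)) : NPC.Poly (fun a => qaT (n a) (wn a)) := by
  have h2 : UPoly (fun a => 2 * (n a + 1)) :=
    UPoly.mul (UPoly.const 2) (UPoly.add hn (UPoly.const 1))
  have h3 : NPC.Poly (fun a => sumT ((trip (n a)).map fun t => Tm.mul (aT (n a) (ix3 (n a) t))
      (Tm.mul (powT' (W973.IP.LT (n a) t.2.1 (wn a)) (min t.2.2 (2 * (n a + 1)))) (owT (wn a) t.1)))) := by
    refine poly_sumT (NPC.Poly.map (F := fun a t => Tm.mul (aT (n a) (ix3 (n a) t))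
      (Tm.mul (powT' (W973.IP.LT (n a) t.2.1 (wn a)) (min t.2.2 (2 * (n a + 1)))) (owT (wn a) t.1)))
      (poly_trip h hn) ?_)
    have hn' : UPoly (fun q : α × (ℕ × ℕ × ℕ) => n q.1) := UPoly.comp hn (NPC.Poly.fst NPC.Poly.id)
    have h2' : UPoly (fun q : α × (ℕ × ℕ × ℕ) => 2 * (n q.1 + 1)) :=
      UPoly.comp (n := fun a : α => 2 * (n a + 1)) h2 (NPC.Poly.fst NPC.Poly.id)
    have hw' : NPC.Poly (fun q : (α × (ℕ × ℕ × ℕ)) × ℕ => wn q.1.1 q.2) :=
      NPC.Poly.comp (g := fun q : α × ℕ => wn q.1 q.2)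
        (f := fun q : (α × (ℕ × ℕ × ℕ)) × ℕ => (q.1.1, q.2)) hw
        (NPC.Poly.pair (NPC.Poly.fst (NPC.Poly.fst NPC.Poly.id)) (NPC.Poly.snd NPC.Poly.id))
    have ht : NPC.Poly (fun q : α × (ℕ × ℕ × ℕ) => q.2) := NPC.Poly.snd NPC.Poly.id
    exact poly_tmul (poly_aT h hn' (poly_ix3 h hn' ht))
      (poly_tmul (poly_powM (poly_LT (wn := fun (q : α × (ℕ × ℕ × ℕ)) => wn q.1) hn'
        (NPC.Poly.fst (NPC.Poly.snd ht)) hw') (NPC.Poly.snd (NPC.Poly.snd ht))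
        h2') (poly_owT (wn := fun (q : α × (ℕ × ℕ × ℕ)) => wn q.1)
        (NPC.Poly.fst ht) hw'))
  have h4 : NPC.Poly (fun a => sumT ((List.range (n a)).map fun l =>
      Tm.mul (aT (n a) l) (Tm.var (nm 3 l 0)))) := by
    refine poly_sumT (NPC.Poly.map (F := fun a l => Tm.mul (aT (n a) l) (Tm.var (nm 3 l 0)))
      hn.range ?_)
    exact poly_tmul (poly_aT h (UPoly.comp hn (NPC.Poly.fst NPC.Poly.id)) (NPC.Poly.snd NPC.Poly.id))
      (poly_tvar (poly_nm (NPC.Poly.snd NPC.Poly.id) (NPC.Poly.const 0)))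
  have h5 : NPC.Poly (fun a => sumT [powT' (XT (n a) (wn a)) (n a + 2),
      sumT ((List.range (n a)).map fun l => Tm.mul (aT (n a) l) (Tm.var (nm 3 l 0))),
      sumT ((trip (n a)).map fun t => Tm.mul (aT (n a) (ix3 (n a) t))
      (Tm.mul (powT' (W973.IP.LT (n a) t.2.1 (wn a)) (min t.2.2 (2 * (n a + 1))))
        (owT (wn a) t.1)))]) :=
    poly_sumT (NPC.Poly.cons (poly_powT' (poly_XT hn hw) (UPoly.add hn (UPoly.const 2)))
      (NPC.Poly.cons h4 (NPC.Poly.cons h3 (NPC.Poly.const []))))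
  refine h5.congr fun a => ?_
  unfold qaT
  congr 5
  refine List.map_congr_left fun t ht => ?_
  rw [min_eq_left (mem_trip ht).le]

theorem poly_dqT (h : S_PU) {n j : α → ℕ} {wn : α → ℕ → ℕ} (hn : UPoly n) (hj : UPoly j)
    (hw : NPC.Poly (fun q : α × ℕ => wn q.1 q.2)) : NPC.Poly (fun a => dqT (n a) (wn a) (j a)) := by
  have h2 : UPoly (fun a => 2 * (n a + 1)) :=
    UPoly.mul (UPoly.const 2) (UPoly.add hn (UPoly.const 1))
  have h3 : NPC.Poly (fun a => sumT ((trip (n a)).map fun t => Tm.mul (aT (n a) (ix3 (n a) t))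
      (Tm.add (Tm.mul (Tm.mul (Tm.mul (numT t.2.2)
        (powT' (W973.IP.LT (n a) t.2.1 (wn a)) (min (t.2.2 - 1) (2 * (n a + 1)))))
        (powT' (numT t.2.1) (j a))) (owT (wn a) t.1))
      (Tm.mul (powT' (W973.IP.LT (n a) t.2.1 (wn a)) (min t.2.2 (2 * (n a + 1))))
        (oneT (decide (t.1 = j a + 1))))))) := by
    refine poly_sumT (NPC.Poly.map (F := fun a t => Tm.mul (aT (n a) (ix3 (n a) t))
      (Tm.add (Tm.mul (Tm.mul (Tm.mul (numT t.2.2)
        (powT' (W973.IP.LT (n a) t.2.1 (wn a)) (min (t.2.2 - 1) (2 * (n a + 1)))))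
        (powT' (numT t.2.1) (j a))) (owT (wn a) t.1))
      (Tm.mul (powT' (W973.IP.LT (n a) t.2.1 (wn a)) (min t.2.2 (2 * (n a + 1))))
        (oneT (decide (t.1 = j a + 1)))))) (poly_trip h hn) ?_)
    have hn' : UPoly (fun q : α × (ℕ × ℕ × ℕ) => n q.1) := UPoly.comp hn (NPC.Poly.fst NPC.Poly.id)
    have h2' : UPoly (fun q : α × (ℕ × ℕ × ℕ) => 2 * (n q.1 + 1)) :=
      UPoly.comp (n := fun a : α => 2 * (n a + 1)) h2 (NPC.Poly.fst NPC.Poly.id)
    have hj' : UPoly (fun q : α × (ℕ × ℕ × ℕ) => j q.1) := UPoly.comp hj (NPC.Poly.fst NPC.Poly.id)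
    have hw' : NPC.Poly (fun q : (α × (ℕ × ℕ × ℕ)) × ℕ => wn q.1.1 q.2) :=
      NPC.Poly.comp (g := fun q : α × ℕ => wn q.1 q.2)
        (f := fun q : (α × (ℕ × ℕ × ℕ)) × ℕ => (q.1.1, q.2)) hw
        (NPC.Poly.pair (NPC.Poly.fst (NPC.Poly.fst NPC.Poly.id)) (NPC.Poly.snd NPC.Poly.id))
    have ht : NPC.Poly (fun q : α × (ℕ × ℕ × ℕ) => q.2) := NPC.Poly.snd NPC.Poly.id
    have hL := poly_LT (wn := fun (q : α × (ℕ × ℕ × ℕ)) => wn q.1) hn'
      (NPC.Poly.fst (NPC.Poly.snd ht)) hw'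
    have hd := NPC.Poly.snd (NPC.Poly.snd ht)
    exact poly_tmul (poly_aT h hn' (poly_ix3 h hn' ht))
      (poly_tadd (poly_tmul (poly_tmul (poly_tmul (poly_numT hd)
        (poly_powM hL (NPC.Poly.sub hd (NPC.Poly.const 1)) h2'))
        (poly_powT' (poly_numT (NPC.Poly.fst (NPC.Poly.snd ht))) hj')) (poly_owT (wn := fun (q : α × (ℕ × ℕ × ℕ)) => wn q.1)
        (NPC.Poly.fst ht) hw'))
      (poly_tmul (poly_powM hL hd h2')
        (poly_oneT (NPC.Poly.decide_eq (NPC.Poly.fst ht) (NPC.Poly.succ hj'.toPoly)))))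
  have h4 : NPC.Poly (fun a => Tm.mul (numT (n a + 2)) (Tm.mul (powT' (XT (n a) (wn a)) (n a + 1))
      (Tm.mul twoT (Tm.var (wn a (j a)))))) :=
    poly_tmul (poly_numT (NPC.Poly.add hn.toPoly (NPC.Poly.const 2)))
      (poly_tmul (poly_powT' (poly_XT hn hw) (UPoly.add hn (UPoly.const 1)))
        (poly_tmul (NPC.Poly.const _) (poly_tvar (NPC.Poly.comp (g := fun q : α × ℕ => wn q.1 q.2)
          (f := fun a => (a, j a)) hw (NPC.Poly.pair NPC.Poly.id hj.toPoly)))))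
  have h5 := poly_sumT (NPC.Poly.cons h4 (NPC.Poly.cons h3 (NPC.Poly.const [])))
  refine h5.congr fun a => ?_
  unfold dqT
  congr 4
  refine List.map_congr_left fun t ht => ?_
  have h6 := mem_trip ht
  rw [min_eq_left h6.le, min_eq_left (by omega : t.2.2 - 1 ≤ 2 * (n a + 1))]

end

theorem pqT (h : S_PU) : S_PQ := by
  intro α _ n wn hn hw
  exact ⟨poly_XT hn hw, poly_qaT h hn hw, fun j hj => poly_dqT h hn hj hw⟩

end Pool.Agent.W672.IP
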