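import Pool.Agent.W973.IP.FDefs

/-!
# Isolated points: unary numbers (part IPF-PU of project IP)
-/

set_option autoImplicit false

namespace Pool.Agent.W672.IP

open Pool.Agent.W973.IP Pool.Agent.NPC Pool.Agent.NPC.ER Pool.Agent.NPC.H612

theorem upow {α : Type} [TEnc α] {n : α → ℕ} (hn : UPoly n) (k : ℕ) :
    UPoly (fun a => n a ^ k) := by
  induction k with
  | zero => simpa using (UPoly.const 1 : UPoly (fun _ : α => 1))
  | succ k ih => simpa only [pow_succ] using UPoly.mul ih hn

theorem puT : S_PU := by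
  intro α _ n hn
  have h1 : UPoly (fun a => n a + 1) := UPoly.add hn (UPoly.const 1)
  have hM : UPoly (fun a => MM (n a)) :=
    UPoly.add (UPoly.mul hn (upow h1 2)) (UPoly.const 1)
  have hb0 : UPoly (fun a => b0 (n a)) := upow (UPoly.add hn (UPoly.const 4)) 2
  have hfa : UPoly (fun a => fa (n a)) :=
    UPoly.add hn (UPoly.mul h1 (UPoly.mul hM (UPoly.mul (UPoly.const 2) h1)))
  have hbb : UPoly (fun a => bb (n a)) :=
    UPoly.add (UPoly.mul (UPoly.add (UPoly.add (UPoly.add hb0
      (UPoly.mul (UPoly.const 30) (upow h1 3))) hfa) (UPoly.const 3))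
      (UPoly.add hfa (UPoly.const 1))) (UPoly.const 1)
  exact ⟨hM, hb0, hfa, hbb⟩

end Pool.Agent.W672.IP
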